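import Mathlib
import Pool.Agent.P.MP_ccd64a_nt.Fin

namespace Pool.Agent.Results.MP_ccd64a_nt.ErdosStraus

open Filter

/-- For all large `X`, at most `X exp(-(log X)^(3/4) / (log log X)^3)` of the integers `2 ≤ n ≤ X`
are exceptions to the Erdős-Straus conjecture. -/
theorem result : ∀ᶠ X : ℕ in atTop,
    ({n : ℕ | 2 ≤ n ∧ n ≤ X ∧ ¬ ∃ b c d : ℕ, 0 < b ∧ 0 < c ∧ 0 < d ∧
        (4 : ℚ) / n = 1 / b + 1 / c + 1 / d}.ncard : ℝ) ≤
      X * Real.exp (-(Real.log X ^ (3 / 4 : ℝ) / Real.log (Real.log X) ^ 3)) := by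
  refine Pool.Agent.P.MP_ccd64a_nt.es.mono fun X hX => le_of_eq_of_le ?_ hX
  rw [← Set.ncard_coe_finset]
  congr 2
  ext q
  simp only [Finset.coe_filter, Finset.mem_Icc, Set.mem_setOf_eq, and_assoc]

end Pool.Agent.Results.MP_ccd64a_nt.ErdosStraus
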