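import Mathlib
import Pool.Agent.P.MP_ccd64a_nt.Fin

namespace Pool.Agent.Results.MP_ccd64a_nt.ExceptionalSet

open Filter

/-- For all large `X`, at most `X exp(-(log X)^(2/3) / (log log X)^2)` of the integers `1 ≤ q ≤ X`
are not values `p₂(x, y, z) = x (4 y z - z - 1) - y z` with `x, y, z ≥ 1`. -/
theorem result : ∀ᶠ X : ℕ in atTop,
    ({q : ℕ | 1 ≤ q ∧ q ≤ X ∧ ¬ ∃ x y z : ℤ, 1 ≤ x ∧ 1 ≤ y ∧ 1 ≤ z ∧
        (q : ℤ) = x * (4 * y * z - z - 1) - y * z}.ncard : ℝ) ≤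
      X * Real.exp (-(Real.log X ^ (2 / 3 : ℝ) / Real.log (Real.log X) ^ 2)) := by
  refine Pool.Agent.P.MP_ccd64a_nt.p2.mono fun X hX => le_of_eq_of_le ?_ hX
  rw [← Set.ncard_coe_finset]
  congr 2
  ext q
  simp only [Finset.coe_filter, Finset.mem_Ioc, Set.mem_setOf_eq, and_assoc, Nat.one_le_iff_ne_zero,
    Nat.pos_iff_ne_zero]

end Pool.Agent.Results.MP_ccd64a_nt.ExceptionalSet
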